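import Mathlib
import Pool.Agent.V11211.WH8

namespace Pool.Agent.Results.MP_fe3f7a_an.SpectralConditions

/-- Numerically hypercyclic operators on a complex normed space. -/
def NumericallyHypercyclic {X : Type*} [NormedAddCommGroup X] [NormedSpace ℂ X]
    (T : X →L[ℂ] X) : Prop :=
  ∃ (x : X) (f : X →L[ℂ] ℂ), ‖x‖ = 1 ∧ ‖f‖ = 1 ∧ f x = 1 ∧
    Dense (Set.range fun k : ℕ => f ((T ^ k) x))

/-- Weakly numerically hypercyclic: similar, through an isomorphism onto some complex Banach space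
`Y`, to a numerically hypercyclic operator. -/
def WeaklyNumericallyHypercyclic.{u, v} {X : Type v} [NormedAddCommGroup X] [NormedSpace ℂ X]
    (T : X →L[ℂ] X) : Prop :=
  ∃ (Y : Type u) (_ : NormedAddCommGroup Y) (_ : NormedSpace ℂ Y) (_ : CompleteSpace Y)
    (J : X ≃L[ℂ] Y) (S : Y →L[ℂ] Y), NumericallyHypercyclic S ∧ ∀ x, T x = J.symm (S (J x))

/-- Multiplicative independence of two numbers. -/
def Independent (z w : ℂ) : Prop := ∀ m n : ℤ, z ^ m * w ^ n = 1 → m = 0 ∧ n = 0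

/-- Infinite multiplicative order. -/
def InfiniteOrder (z : ℂ) : Prop := ∀ m : ℕ, 0 < m → z ^ m ≠ 1

/-- the eigenvalue `a` has a nontrivial Jordan block -/
def NontrivialJordan {X : Type*} [AddCommGroup X] [Module ℂ X] (T : Module.End ℂ X) (a : ℂ) : Prop :=
  LinearMap.ker ((T - a • (1 : Module.End ℂ X)) ^ 2) ≠ LinearMap.ker (T - a • (1 : Module.End ℂ X))

def C1 {X : Type*} [AddCommGroup X] [Module ℂ X] (T : Module.End ℂ X) : Prop :=
  ∃ a b : ℂ, T.HasEigenvalue a ∧ T.HasEigenvalue b ∧ ‖a‖ = ‖b‖ ∧ 1 < ‖a‖ ∧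
    Independent (a / (‖a‖ : ℂ)) (b / (‖b‖ : ℂ))

def C2 {X : Type*} [AddCommGroup X] [Module ℂ X] (T : Module.End ℂ X) : Prop :=
  ∃ a b : ℂ, ‖a‖ = 1 ∧ ‖b‖ = 1 ∧ Independent a b ∧ NontrivialJordan T a ∧ NontrivialJordan T b

def C3 {X : Type*} [AddCommGroup X] [Module ℂ X] (T : Module.End ℂ X) : Prop :=
  ∃ a b c : ℂ, T.HasEigenvalue a ∧ T.HasEigenvalue b ∧ T.HasEigenvalue c ∧
    ‖a‖ = ‖b‖ ∧ ‖c‖ < ‖b‖ ∧ 1 < ‖c‖ ∧ InfiniteOrder (a / b) ∧
    Independent (a / (‖a‖ : ℂ)) (c / (‖c‖ : ℂ))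

def C4 {X : Type*} [AddCommGroup X] [Module ℂ X] (T : Module.End ℂ X) : Prop :=
  ∃ a b c : ℂ, T.HasEigenvalue a ∧ T.HasEigenvalue b ∧ ‖c‖ = 1 ∧ NontrivialJordan T c ∧
    ‖a‖ = ‖b‖ ∧ 1 < ‖a‖ ∧ InfiniteOrder (a / b) ∧ Independent (a / (‖a‖ : ℂ)) c

open Pool.Agent.V11211.WH in
theorem main {V : Type*} [AddCommGroup V] [Module ℂ V] [FiniteDimensional ℂ V]
    (T : Module.End ℂ V) (f : V →ₗ[ℂ] ℂ) (x : V) (hd : Dense (Set.range fun k : ℕ => f ((T ^ k) x))) :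
    C1 T ∨ C2 T ∨ C3 T ∨ C4 T := by
  by_contra hcon
  push Not at hcon
  obtain ⟨h1, h2, h3, h4⟩ := hcon
  obtain ⟨P, hP0, hPe, hPd, C, hC⟩ := rep_all T f x
  have hK : NoK P := by
    refine ⟨?_, ?_, ?_, ?_⟩
    · intro a ha b hb hab ha1 hind
      exact h1 ⟨a, b, hPe a ha, hPe b hb, hab, ha1, hind⟩
    · intro a ha b hb ha1 hb1 hda hdb hind
      exact h2 ⟨a, b, ha1, hb1, hind, hPd a hda, hPd b hdb⟩
    · intro a ha b hb c hc hab hca hc1 hinf hind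
      exact h3 ⟨a, b, c, hPe a ha, hPe b hb, hPe c hc, hab, hab ▸ hca, hc1, hinf, hind⟩
    · intro a ha b hb c hc hab ha1 hc1 hdc hinf hind
      exact h4 ⟨a, b, c, hPe a ha, hPe b hb, hc1, hPd c hdc, hab, ha1, hinf, hind⟩
  have hav : Avoid (val P) := avoid_of_noK P hP0 hK
  have hav2 : Avoid (fun k : ℕ => f ((T ^ k) x)) :=
    avoid_perturb hav C (fun q => by rw [norm_sub_rev]; exact hC q)
  exact not_dense_of_avoid hav2 hd

/-- **Main result.** Every weakly numerically hypercyclic operator on `ℂⁿ` satisfies one of the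
spectral conditions (C1)-(C4). -/
theorem result.{u} (n : ℕ) (T : EuclideanSpace ℂ (Fin n) →L[ℂ] EuclideanSpace ℂ (Fin n))
    (hT : WeaklyNumericallyHypercyclic.{u} T) :
    C1 (T : Module.End ℂ (EuclideanSpace ℂ (Fin n))) ∨
    C2 (T : Module.End ℂ (EuclideanSpace ℂ (Fin n))) ∨
    C3 (T : Module.End ℂ (EuclideanSpace ℂ (Fin n))) ∨
    C4 (T : Module.End ℂ (EuclideanSpace ℂ (Fin n))) := by
  obtain ⟨Y, _, _, _, J, S, ⟨y, f, _, _, _, hd⟩, hS⟩ := hT
  have hk : ∀ (k : ℕ) (x : EuclideanSpace ℂ (Fin n)),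
      J (((T : Module.End ℂ (EuclideanSpace ℂ (Fin n))) ^ k) x) = (S ^ k) (J x) := by
    intro k
    induction k with
    | zero => intro x; rfl
    | succ k ih =>
      intro x
      rw [pow_succ, pow_succ, Module.End.mul_apply, ih, ContinuousLinearMap.mul_apply]
      congr 1
      show J (T x) = S (J x)
      rw [hS x, ContinuousLinearEquiv.apply_symm_apply]
  refine main (T : Module.End ℂ (EuclideanSpace ℂ (Fin n)))
    ((f.comp (J : EuclideanSpace ℂ (Fin n) →L[ℂ] Y)).toLinearMap) (J.symm y) ?_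
  convert hd using 2
  funext k
  show f (J (((T : Module.End ℂ (EuclideanSpace ℂ (Fin n))) ^ k) (J.symm y))) = f ((S ^ k) y)
  rw [hk, ContinuousLinearEquiv.apply_symm_apply]

end Pool.Agent.Results.MP_fe3f7a_an.SpectralConditions
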